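import Mathlib

/-!
Cycles of a permutation and multiplication by a transposition: the number of cycles changes by
exactly one.
-/

set_option linter.unusedSectionVars false

namespace Pool.Agent.H47.TCF

open Equiv Equiv.Perm

variable {α : Type*} [Fintype α] [DecidableEq α]

/-- Number of cycles (orbits, fixed points included) of a permutation. -/
noncomputable def nc (φ : Perm α) : ℕ := Nat.card (Quotient (SameCycle.setoid φ))

theorem sameCycle_pow_of_step {φ ψ : Perm α} (h : ∀ x, SameCycle ψ x (φ x)) (i : ℕ) (x : α) :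
    SameCycle ψ x ((φ ^ i) x) := by
  induction i with
  | zero => exact SameCycle.refl _ _
  | succ i ih =>
    rw [pow_succ', mul_apply]
    exact ih.trans (h _)

theorem sameCycle_of_step {φ ψ : Perm α} (h : ∀ x, SameCycle ψ x (φ x)) {x y : α}
    (hxy : SameCycle φ x y) : SameCycle ψ x y := by
  obtain ⟨i, _, rfl⟩ := hxy.exists_pow_eq'
  exact sameCycle_pow_of_step h i x

theorem exists_minimal_pow {φ : Perm α} {a b : α} (h : ∃ k : ℕ, 0 < k ∧ (φ ^ k) a = b) :
    ∃ k : ℕ, 0 < k ∧ (φ ^ k) a = b ∧ ∀ j, 0 < j → j < k → (φ ^ j) a ≠ b := by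
  classical
  refine ⟨Nat.find h, (Nat.find_spec h).1, (Nat.find_spec h).2, ?_⟩
  intro j hj hjk hEq
  exact Nat.find_min h hjk ⟨hj, hEq⟩

theorem swap_mul_sameCycle {φ : Perm α} {a b : α} (h : ¬ SameCycle φ a b) :
    SameCycle (swap a b * φ) a b := by
  obtain ⟨m, hm, hma, hmin⟩ := exists_minimal_pow (φ := φ) (a := a) (b := a)
    ⟨orderOf φ, orderOf_pos φ, by rw [pow_orderOf_eq_one]; rfl⟩
  have key : ∀ j, j < m → ((swap a b * φ) ^ j) a = (φ ^ j) a := by
    intro j
    induction j with
    | zero => intro _; rfl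
    | succ j ih =>
      intro hj
      rw [pow_succ', mul_apply, ih (by omega), mul_apply, pow_succ', mul_apply]
      apply swap_apply_of_ne_of_ne
      · intro h1
        exact hmin (j + 1) (by omega) hj (by rw [pow_succ', mul_apply]; exact h1)
      · intro h1
        exact h ⟨((j + 1 : ℕ) : ℤ), by rw [zpow_natCast, pow_succ', mul_apply]; exact h1⟩
  obtain ⟨m', rfl⟩ : ∃ m', m = m' + 1 := ⟨m - 1, by omega⟩
  refine ⟨((m' + 1 : ℕ) : ℤ), ?_⟩
  rw [zpow_natCast, pow_succ', mul_apply, key m' (by omega), mul_apply]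
  have h2 : φ ((φ ^ m') a) = a := by rw [← mul_apply, ← pow_succ']; exact hma
  rw [h2, swap_apply_left]

theorem swap_mul_not_sameCycle {φ : Perm α} {a b : α} (hab : a ≠ b) (h : SameCycle φ a b) :
    ¬ SameCycle (swap a b * φ) a b := by
  obtain ⟨i, hi0, _, hi⟩ := h.exists_pow_eq''
  obtain ⟨k, hk, hka, hmin⟩ := exists_minimal_pow (φ := φ) (a := a) (b := b) ⟨i, hi0, hi⟩
  have hna : ∀ j, 0 < j → j < k → (φ ^ j) a ≠ a := by
    intro j hj hjk hEq
    apply hmin (k - j) (by omega) (by omega)
    have h1 : (φ ^ (k - j)) ((φ ^ j) a) = b := by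
      rw [← mul_apply, ← pow_add, Nat.sub_add_cancel hjk.le]; exact hka
    rwa [hEq] at h1
  have key : ∀ j, j < k → ((swap a b * φ) ^ j) a = (φ ^ j) a := by
    intro j
    induction j with
    | zero => intro _; rfl
    | succ j ih =>
      intro hj
      rw [pow_succ', mul_apply, ih (by omega), mul_apply, pow_succ', mul_apply]
      apply swap_apply_of_ne_of_ne
      · intro h1
        exact hna (j + 1) (by omega) hj (by rw [pow_succ', mul_apply]; exact h1)
      · intro h1
        exact hmin (j + 1) (by omega) hj (by rw [pow_succ', mul_apply]; exact h1)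
  have hper : ((swap a b * φ) ^ k) a = a := by
    obtain ⟨k', rfl⟩ : ∃ k', k = k' + 1 := ⟨k - 1, by omega⟩
    rw [pow_succ', mul_apply, key k' (by omega), mul_apply]
    have h2 : φ ((φ ^ k') a) = b := by rw [← mul_apply, ← pow_succ']; exact hka
    rw [h2, swap_apply_right]
  have hper' : ∀ q : ℕ, ((swap a b * φ) ^ (k * q)) a = a := by
    intro q
    induction q with
    | zero => simp
    | succ q ih => rw [Nat.mul_succ, pow_add, mul_apply, hper, ih]
  intro hs
  obtain ⟨j, _, hj⟩ := hs.exists_pow_eq'
  have h3 : ((swap a b * φ) ^ (j % k)) a = b := by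
    have h4 : ((swap a b * φ) ^ j) a = ((swap a b * φ) ^ (j % k)) a := by
      conv_lhs => rw [← Nat.mod_add_div j k, pow_add, mul_apply, hper']
    rw [← h4]
    exact hj
  rw [key _ (Nat.mod_lt _ hk)] at h3
  rcases Nat.eq_zero_or_pos (j % k) with h0 | h0
  · rw [h0] at h3
    exact hab h3
  · exact hmin _ h0 (Nat.mod_lt _ hk) h3

theorem sameCycle_swap_mul_of_sameCycle {φ : Perm α} {a b : α} (h : ¬ SameCycle φ a b) {x y : α}
    (hxy : SameCycle φ x y) : SameCycle (swap a b * φ) x y := by
  have h1 := swap_mul_sameCycle h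
  apply sameCycle_of_step _ hxy
  intro z
  by_cases hza : φ z = a
  · have h2 : (swap a b * φ) z = b := by rw [mul_apply, hza, swap_apply_left]
    rw [hza]
    have h3 : SameCycle (swap a b * φ) z ((swap a b * φ) z) := ⟨1, by simp⟩
    rw [h2] at h3
    exact h3.trans h1.symm
  · by_cases hzb : φ z = b
    · have h2 : (swap a b * φ) z = a := by rw [mul_apply, hzb, swap_apply_right]
      rw [hzb]
      have h3 : SameCycle (swap a b * φ) z ((swap a b * φ) z) := ⟨1, by simp⟩
      rw [h2] at h3
      exact h3.trans h1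
    · have h2 : (swap a b * φ) z = φ z := by
        rw [mul_apply, swap_apply_of_ne_of_ne hza hzb]
      rw [← h2]
      exact ⟨1, by simp⟩

/-- Multiplying by a transposition of points of different cycles merges the two cycles. -/
theorem nc_merge {φ : Perm α} {a b : α} (h : ¬ SameCycle φ a b) :
    nc φ = nc (swap a b * φ) + 1 := by
  classical
  set ψ := swap a b * φ with hψ
  let mkφ : α → Quotient (SameCycle.setoid φ) := Quotient.mk _
  have mk_eq : ∀ x y, mkφ x = mkφ y ↔ SameCycle φ x y := fun x y =>
    ⟨fun h => Quotient.exact h, fun h => Quotient.sound h⟩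
  let g : α → Quotient (SameCycle.setoid φ) := fun x => if mkφ x = mkφ b then mkφ a else mkφ x
  have hab : mkφ a ≠ mkφ b := fun h' => h ((mk_eq _ _).1 h')
  have hga : g a = mkφ a := if_neg hab
  have hgb : g b = mkφ a := if_pos rfl
  have hgφ : ∀ x, g (φ x) = g x := by
    intro x
    have : mkφ (φ x) = mkφ x := (mk_eq _ _).2 (by rw [sameCycle_apply_left])
    simp only [g, this]
  have hgψ : ∀ x, g (ψ x) = g x := by
    intro x
    rw [hψ, mul_apply]
    by_cases h1 : φ x = a
    · rw [h1, swap_apply_left, hgb, ← hgφ x, h1, hga]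
    · by_cases h2 : φ x = b
      · rw [h2, swap_apply_right, hga, ← hgφ x, h2, hgb]
      · rw [swap_apply_of_ne_of_ne h1 h2, hgφ]
  have hgψ' : ∀ (i : ℕ) x, g ((ψ ^ i) x) = g x := by
    intro i
    induction i with
    | zero => intro x; rfl
    | succ i ih => intro x; rw [pow_succ', mul_apply, hgψ, ih]
  have hg1 : ∀ x y, SameCycle ψ x y → g x = g y := by
    intro x y hxy
    obtain ⟨i, _, rfl⟩ := hxy.exists_pow_eq'
    exact (hgψ' i x).symm
  have hbψ : SameCycle ψ a b := swap_mul_sameCycle h
  have himp : ∀ x y, SameCycle φ x y → SameCycle ψ x y := fun x y =>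
    sameCycle_swap_mul_of_sameCycle h
  have hg2 : ∀ x, SameCycle ψ x (if mkφ x = mkφ b then a else x) := by
    intro x
    by_cases hx : mkφ x = mkφ b
    · rw [if_pos hx]
      exact (himp _ _ ((mk_eq _ _).1 hx)).trans hbψ.symm
    · rw [if_neg hx]
  let F : {q : Quotient (SameCycle.setoid φ) // q ≠ mkφ b} → Quotient (SameCycle.setoid ψ) :=
    fun q => Quotient.lift (s := SameCycle.setoid φ)
      (fun x => (Quotient.mk (SameCycle.setoid ψ) x))
      (fun x y hxy => Quotient.sound (himp x y hxy)) q.1
  have hF : Function.Bijective F := by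
    constructor
    · rintro ⟨q1, h1⟩ ⟨q2, h2⟩ h12
      induction q1 using Quotient.inductionOn with | _ x =>
      induction q2 using Quotient.inductionOn with | _ y =>
      have h3 : SameCycle ψ x y := Quotient.exact h12
      have h4 := hg1 x y h3
      simp only [g] at h4
      rw [if_neg h1, if_neg h2] at h4
      exact Subtype.ext h4
    · intro q
      induction q using Quotient.inductionOn with | _ x =>
      refine ⟨⟨mkφ (if mkφ x = mkφ b then a else x), ?_⟩, ?_⟩
      · by_cases hx : mkφ x = mkφ b
        · rw [if_pos hx]; exact hab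
        · rw [if_neg hx]; exact hx
      · exact Quotient.sound (hg2 x).symm
  have hcard : Nat.card {q : Quotient (SameCycle.setoid φ) // q ≠ mkφ b} = nc ψ :=
    Nat.card_congr (Equiv.ofBijective F hF)
  have hfin : Finite (Quotient (SameCycle.setoid φ)) := Quotient.finite _
  have : Fintype (Quotient (SameCycle.setoid φ)) := Fintype.ofFinite _
  have h5 : Nat.card {q : Quotient (SameCycle.setoid φ) // q ≠ mkφ b} + 1 =
      Nat.card (Quotient (SameCycle.setoid φ)) := by
    rw [Nat.card_eq_fintype_card, Nat.card_eq_fintype_card]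
    have h6 := Set.card_ne_eq (mkφ b)
    have h7 : 0 < Fintype.card (Quotient (SameCycle.setoid φ)) := Fintype.card_pos_iff.2 ⟨mkφ b⟩
    have h8 : Fintype.card {q : Quotient (SameCycle.setoid φ) // q ≠ mkφ b} =
      Fintype.card (Quotient (SameCycle.setoid φ)) - 1 := by
      convert h6
    omega
  rw [← hcard, h5]
  rfl

/-- Multiplying by a transposition of two points of one cycle splits the cycle. -/
theorem nc_split {φ : Perm α} {a b : α} (hab : a ≠ b) (h : SameCycle φ a b) :
    nc (swap a b * φ) = nc φ + 1 := by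
  have h1 := nc_merge (swap_mul_not_sameCycle hab h)
  rwa [← mul_assoc, swap_mul_self, one_mul] at h1

theorem nc_eq_one {φ : Perm α} [Nonempty α] (h : ∀ x y, SameCycle φ x y) : nc φ = 1 := by
  unfold nc
  rw [Nat.card_eq_one_iff_unique]
  constructor
  · constructor
    intro q1 q2
    induction q1 using Quotient.inductionOn with | _ x =>
    induction q2 using Quotient.inductionOn with | _ y =>
    exact Quotient.sound (h x y)
  · exact ⟨Quotient.mk _ (Classical.arbitrary α)⟩

end Pool.Agent.H47.TCF
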