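import Mathlib
import Pool.Agent.H47.TCF.Perm

/-!
The chain lemma: a closed system of pairwise exchangeable pairs in non-crossing position on a
circle gives a permutation with exactly two cycles.
-/

set_option linter.unusedSectionVars false

namespace Pool.Agent.H47.TCF

open Equiv Equiv.Perm

variable {n : ℕ} [NeZero n]

/-- Next point of the circle. -/
def nx (n : ℕ) [NeZero n] : Perm (Fin n) := Equiv.addRight 1

theorem nx_apply (k : Fin n) : nx n k = k + 1 := rfl

theorem nx_symm_val {k : Fin n} (h : 0 < k.val) : ((nx n).symm k).val = k.val - 1 := by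
  have hk := k.isLt
  have h1 : (⟨k.val - 1, by omega⟩ : Fin n) + 1 = k := by
    apply Fin.ext
    rw [Fin.val_add_one_of_lt']
    · simp only; omega
    · simp only; omega
  have h2 : (nx n).symm k = ⟨k.val - 1, by omega⟩ := by
    rw [Equiv.symm_apply_eq, nx_apply, h1]
  rw [h2]

/-- `U` is the set of used points, `ι` the matching on `U`; the matching is non-crossing. -/
structure Match (U : Finset (Fin n)) (ι : Fin n → Fin n) : Prop where
  mem : ∀ w ∈ U, ι w ∈ U
  inv : ∀ w ∈ U, ι (ι w) = w
  ne : ∀ w ∈ U, ι w ≠ w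
  lam : ∀ x ∈ U, x < ι x → ∀ w ∈ U, x < w → w < ι x → x < ι w ∧ ι w < ι x

/-- The admissible states. -/
structure InS (S : Fin n → Finset (Fin n)) (U : Finset (Fin n)) (ι : Fin n → Fin n)
    (σ : Perm (Fin n)) : Prop where
  off : ∀ w, w ∉ U → σ w = w
  mem : ∀ w ∈ U, σ w ∈ U
  opt : ∀ w ∈ U, σ w ∈ S w
  opt' : ∀ w ∈ U, ι (σ w) ∈ S w
  comm : ∀ w ∈ U, σ (ι w) = ι (σ w)

theorem InS.swap {S : Fin n → Finset (Fin n)} {U : Finset (Fin n)} {ι : Fin n → Fin n}
    {σ : Perm (Fin n)} (hM : Match U ι) (h : InS S U ι σ) {z : Fin n} (hz : z ∈ U) :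
    InS S U ι (Equiv.swap z (ι z) * σ) := by
  have key : ∀ w ∈ U, (Equiv.swap z (ι z) * σ) w = σ w ∨
      (Equiv.swap z (ι z) * σ) w = ι (σ w) := by
    intro w hw
    rw [mul_apply]
    by_cases h1 : σ w = z
    · right; rw [h1, swap_apply_left]
    · by_cases h2 : σ w = ι z
      · right; rw [h2, swap_apply_right, hM.inv z hz]
      · left; rw [swap_apply_of_ne_of_ne h1 h2]
  constructor
  · intro w hw
    rw [mul_apply, h.off w hw]
    apply swap_apply_of_ne_of_ne
    · rintro rfl; exact hw hz
    · rintro rfl; exact hw (hM.mem z hz)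
  · intro w hw
    rcases key w hw with h1 | h1
    · rw [h1]; exact h.mem w hw
    · rw [h1]; exact hM.mem _ (h.mem w hw)
  · intro w hw
    rcases key w hw with h1 | h1
    · rw [h1]; exact h.opt w hw
    · rw [h1]; exact h.opt' w hw
  · intro w hw
    rcases key w hw with h1 | h1
    · rw [h1]; exact h.opt' w hw
    · rw [h1, hM.inv _ (h.mem w hw)]; exact h.opt w hw
  · intro w hw
    rw [mul_apply, mul_apply, h.comm w hw]
    by_cases h1 : σ w = z
    · rw [h1, swap_apply_left, swap_apply_right, hM.inv z hz]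
    · by_cases h2 : σ w = ι z
      · rw [h2, swap_apply_right, hM.inv z hz, swap_apply_left]
      · have h3 : ι (σ w) ≠ z := by
          intro h4
          apply h2
          rw [← h4, hM.inv _ (h.mem w hw)]
        have h4 : ι (σ w) ≠ ι z := by
          intro h5
          apply h1
          rw [← hM.inv _ (h.mem w hw), h5, hM.inv z hz]
        rw [swap_apply_of_ne_of_ne h1 h2, swap_apply_of_ne_of_ne h3 h4]

/-- Telescoping around an arc. -/
theorem sum_arc (χ : Fin n → ZMod 2) (m : ℕ) : ∀ x y : Fin n, y.val = x.val + 1 + m →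
    ∑ w ∈ Finset.Ioo x y, (χ w - χ ((nx n).symm w)) = χ ((nx n).symm y) - χ x := by
  induction m with
  | zero =>
    intro x y hxy
    have h1 : Finset.Ioo x y = ∅ := by
      ext w
      simp only [Finset.mem_Ioo, Fin.lt_def, Finset.notMem_empty, iff_false]
      omega
    have h2 : (nx n).symm y = x := by
      apply Fin.ext
      rw [nx_symm_val (by omega)]
      omega
    rw [h1, h2]
    simp
  | succ m ih =>
    intro x y hxy
    have hy := nx_symm_val (k := y) (by omega)
    have h1 : Finset.Ioo x y = insert ((nx n).symm y) (Finset.Ioo x ((nx n).symm y)) := by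
      ext w
      simp only [Finset.mem_Ioo, Finset.mem_insert, Fin.lt_def, Fin.ext_iff]
      omega
    rw [h1, Finset.sum_insert, ih x ((nx n).symm y) (by omega)]
    · ring
    · simp

theorem transitive_of_flips {S : Fin n → Finset (Fin n)} {U : Finset (Fin n)}
    {ι : Fin n → Fin n} {σ : Perm (Fin n)} (hM : Match U ι) (h : InS S U ι σ)
    (hc : ∀ z ∈ U, SameCycle (σ * nx n) z (ι z)) (x y : Fin n) :
    SameCycle (σ * nx n) x y := by
  classical
  set φ := σ * nx n with hφ
  let χ : Fin n → ZMod 2 := fun k => if SameCycle φ x k then 1 else 0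
  have hχ : ∀ k l, SameCycle φ k l → χ k = χ l := by
    intro k l hkl
    have : SameCycle φ x k ↔ SameCycle φ x l := ⟨fun h => h.trans hkl, fun h => h.trans hkl.symm⟩
    simp only [χ, this]
  have hpred : ∀ w, χ (σ w) = χ ((nx n).symm w) := by
    intro w
    apply hχ
    have : φ ((nx n).symm w) = σ w := by rw [hφ, mul_apply, Equiv.apply_symm_apply]
    rw [← this, sameCycle_apply_left]
  have hD0 : ∀ w, w ∉ U → χ w - χ ((nx n).symm w) = 0 := by
    intro w hw
    rw [← hpred, h.off w hw, sub_self]
  have hDι : ∀ w ∈ U, χ (ι w) - χ ((nx n).symm (ι w)) = χ w - χ ((nx n).symm w) := by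
    intro w hw
    rw [← hpred, ← hpred, h.comm w hw, ← hχ _ _ (hc w hw), ← hχ _ _ (hc _ (h.mem w hw))]
  have hD1 : ∀ w ∈ U, w < ι w → χ (ι w) - χ ((nx n).symm (ι w)) = 0 := by
    intro w hw hlt
    have h1 := sum_arc χ ((ι w).val - w.val - 1) w (ι w) (by rw [Fin.lt_def] at hlt; omega)
    have h2 : ∑ u ∈ Finset.Ioo w (ι w), (χ u - χ ((nx n).symm u)) = 0 := by
      apply Finset.sum_involution (fun u _ => if u ∈ U then ι u else u)
      · intro u hu
        by_cases hU : u ∈ U
        · simp only [if_pos hU]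
          rw [hDι u hU]
          exact CharTwo.add_self_eq_zero _
        · simp only [if_neg hU]
          rw [hD0 u hU, add_zero]
      · intro u hu hne
        by_cases hU : u ∈ U
        · simp only [if_pos hU]
          exact hM.ne u hU
        · exact absurd (hD0 u hU) hne
      · intro u hu
        by_cases hU : u ∈ U
        · simp only [if_pos hU]
          rw [Finset.mem_Ioo] at hu ⊢
          exact hM.lam w hw hlt u hU hu.1 hu.2
        · simp only [if_neg hU]
          exact hu
      · intro u hu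
        by_cases hU : u ∈ U
        · simp only [if_pos hU, if_pos (hM.mem u hU)]
          exact hM.inv u hU
        · simp only [if_neg hU]
    rw [h2] at h1
    have h3 : χ ((nx n).symm (ι w)) = χ w := by
      have := sub_eq_zero.1 h1.symm
      exact this
    rw [h3, ← hχ _ _ (hc w hw), sub_self]
  have hD : ∀ w, χ w = χ ((nx n).symm w) := by
    intro w
    rw [← sub_eq_zero]
    by_cases hw : w ∈ U
    · rcases lt_trichotomy w (ι w) with h1 | h1 | h1
      · rw [← hDι w hw]
        exact hD1 w hw h1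
      · exact absurd h1.symm (hM.ne w hw)
      · have h2 := hD1 (ι w) (hM.mem w hw) (by rw [hM.inv w hw]; exact h1)
        rwa [hM.inv w hw] at h2
    · exact hD0 w hw
  have hconst : ∀ (m : ℕ) (w : Fin n), w.val = m → χ w = χ 0 := by
    intro m
    induction m with
    | zero =>
      intro w hw
      have : w = 0 := Fin.ext (by rw [hw]; simp)
      rw [this]
    | succ m ih =>
      intro w hw
      rw [hD w]
      apply ih
      rw [nx_symm_val (by omega)]
      omega
  have hx1 : χ x = 1 := if_pos (SameCycle.refl _ _)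
  have hy1 : χ y = 1 := by rw [hconst _ y rfl, ← hconst _ x rfl, hx1]
  by_contra hcon
  have hy0 : χ y = 0 := if_neg hcon
  rw [hy0] at hy1
  exact absurd hy1 (by decide)

/-- The chain lemma. -/
theorem exists_two_cycles {S : Fin n → Finset (Fin n)} {U : Finset (Fin n)}
    {ι : Fin n → Fin n} (hM : Match U ι) (hU : U.Nonempty) {σ₀ : Perm (Fin n)}
    (h₀ : InS S U ι σ₀) : ∃ σ : Perm (Fin n), InS S U ι σ ∧ nc (σ * nx n) = 2 := by
  classical
  have hex : ∃ m : ℕ, ∃ σ : Perm (Fin n), InS S U ι σ ∧ nc (σ * nx n) = m := ⟨_, σ₀, h₀, rfl⟩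
  obtain ⟨σ, hσ, hm⟩ := Nat.find_spec hex
  have hmin := fun m => Nat.find_min hex (m := m)
  have hc : ∀ z ∈ U, SameCycle (σ * nx n) z (ι z) := by
    intro z hz
    by_contra hcon
    have h1 := nc_merge hcon
    rw [← mul_assoc] at h1
    exact hmin (nc (Equiv.swap z (ι z) * σ * nx n)) (by omega) ⟨_, hσ.swap hM hz, rfl⟩
  have h1 : nc (σ * nx n) = 1 := nc_eq_one (transitive_of_flips hM hσ hc)
  obtain ⟨z, hz⟩ := hU
  refine ⟨Equiv.swap z (ι z) * σ, hσ.swap hM hz, ?_⟩
  rw [mul_assoc, nc_split (hM.ne z hz).symm (hc z hz), h1]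

end Pool.Agent.H47.TCF
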