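import Mathlib
import Pool.Agent.H47.TCF.Perm

/-!
From a permutation with exactly two cycles, all of length at least three, to a 2-factor with
exactly two cycles; and the cyclic ordering given by a Hamiltonian cycle.
-/

set_option linter.unusedSectionVars false

namespace Pool.Agent.H47.TCF

open Equiv Equiv.Perm

variable {V : Type} {α : Type} [Fintype α] [DecidableEq α]

/-- The graph of a permutation, transported along `v`. -/
def permGraph (φ : Perm α) (v : α ≃ V) (hne : ∀ k, φ k ≠ k) : SimpleGraph V where
  Adj x y := φ (v.symm x) = v.symm y ∨ φ (v.symm y) = v.symm x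
  symm := ⟨fun x y h => h.symm⟩
  loopless := ⟨fun x h => by rcases h with h | h <;> exact hne _ h⟩

theorem exists_twoFactor (G : SimpleGraph V) (φ : Perm α) (v : α ≃ V)
    (hG : ∀ k, G.Adj (v k) (v (φ k))) (h2 : ∀ k, φ (φ k) ≠ k) (hnc : nc φ = 2) :
    ∃ F : SimpleGraph V, F ≤ G ∧ (∀ x, (F.neighborSet x).ncard = 2) ∧
      Nat.card F.ConnectedComponent = 2 := by
  have hne : ∀ k, φ k ≠ k := fun k h => G.ne_of_adj (hG k) (by rw [h])
  refine ⟨permGraph φ v hne, ?_, ?_, ?_⟩
  · intro x y h
    rcases h with h | h
    · have := hG (v.symm x)
      rw [h, Equiv.apply_symm_apply, Equiv.apply_symm_apply] at this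
      exact this
    · have := hG (v.symm y)
      rw [h, Equiv.apply_symm_apply, Equiv.apply_symm_apply] at this
      exact this.symm
  · intro x
    have h1 : (permGraph φ v hne).neighborSet x = {v (φ (v.symm x)), v (φ.symm (v.symm x))} := by
      ext y
      rw [SimpleGraph.mem_neighborSet]
      simp only [Set.mem_insert_iff, Set.mem_singleton_iff]
      constructor
      · rintro (h | h)
        · left; rw [h, Equiv.apply_symm_apply]
        · right; rw [← h, Equiv.symm_apply_apply, Equiv.apply_symm_apply]
      · rintro (h | h)
        · left; rw [h, Equiv.symm_apply_apply]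
        · right; rw [h, Equiv.symm_apply_apply, Equiv.apply_symm_apply]
    rw [h1, Set.ncard_pair]
    intro h
    have h3 := v.injective h
    apply h2 (φ.symm (v.symm x))
    rw [Equiv.apply_symm_apply]
    exact h3
  · rw [← hnc]
    unfold nc
    apply Nat.card_congr
    have hreach : ∀ x y : V, (permGraph φ v hne).Reachable x y ↔
        SameCycle φ (v.symm x) (v.symm y) := by
      intro x y
      constructor
      · rintro ⟨p⟩
        induction p with
        | nil => exact SameCycle.refl _ _
        | cons h _ ih =>
          refine SameCycle.trans ?_ ih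
          rcases h with h | h
          · rw [← h, sameCycle_apply_right]
          · rw [← h, sameCycle_apply_left]
      · intro h
        obtain ⟨i, _, hi⟩ := h.exists_pow_eq'
        have key : ∀ (i : ℕ) (x : V), (permGraph φ v hne).Reachable x (v ((φ ^ i) (v.symm x))) := by
          intro i
          induction i with
          | zero => intro x; simp
          | succ i ih =>
            intro x
            refine (ih x).trans (SimpleGraph.Adj.reachable ?_)
            left
            rw [Equiv.symm_apply_apply, Equiv.symm_apply_apply, pow_succ', mul_apply]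
        have h3 := key i x
        rw [hi, Equiv.apply_symm_apply] at h3
        exact h3
    exact Quot.congr v.symm hreach

/-- The cyclic ordering of the vertices given by a Hamiltonian cycle. -/
theorem exists_cyclic {n : ℕ} [NeZero n] (hn : 3 ≤ n) (G : SimpleGraph (Fin n))
    (hG : G.IsHamiltonian) :
    ∃ v : Fin n ≃ Fin n, ∀ k, G.Adj (v k) (v (k + 1)) := by
  obtain ⟨a, p, hp⟩ := hG (by rw [Fintype.card_fin]; omega)
  have hlen : p.length = n := by rw [hp.length_eq, Fintype.card_fin]
  let f : Fin n → Fin n := fun k => p.getVert k.val
  have hinj : Function.Injective f := by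
    intro i j hij
    have hc := hp.isCycle
    have hi := i.isLt
    have hj := j.isLt
    have := hc.getVert_injOn' (x₁ := i.val) (x₂ := j.val) (show i.val ≤ p.length - 1 by omega)
      (show j.val ≤ p.length - 1 by omega) hij
    exact Fin.ext this
  refine ⟨Equiv.ofBijective f (Finite.injective_iff_bijective.1 hinj), ?_⟩
  intro k
  show G.Adj (p.getVert k.val) (p.getVert (k + 1).val)
  have hk := k.isLt
  by_cases h : k.val + 1 < n
  · rw [Fin.val_add_one_of_lt' h]
    exact p.adj_getVert_succ (by omega)
  · have h1 : (k + 1).val = 0 := by
      rw [Fin.val_add, Fin.val_one', Nat.mod_eq_of_lt (a := 1) (by omega)]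
      have : k.val + 1 = n := by omega
      rw [this, Nat.mod_self]
    have h2 := p.adj_getVert_succ (i := k.val) (by omega)
    have h3 : p.getVert (k.val + 1) = p.getVert 0 := by
      have : k.val + 1 = p.length := by omega
      rw [this, SimpleGraph.Walk.getVert_length, SimpleGraph.Walk.getVert_zero]
    rw [h1, ← h3]
    exact h2

end Pool.Agent.H47.TCF
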