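import Mathlib

/-!
Counting pairs with many common options.
-/

set_option linter.unusedSectionVars false

namespace Pool.Agent.H47.TCF

open Finset

variable {n : ℕ}

/-- The pair `x, y` has at least `d ^ 2 / (4 n)` common options. -/
def Good (S : Fin n → Finset (Fin n)) (d : ℕ) (x y : Fin n) : Prop :=
  d ^ 2 ≤ 4 * n * (S x ∩ S y).card

theorem Good.symm {S : Fin n → Finset (Fin n)} {d : ℕ} {x y : Fin n} (h : Good S d x y) :
    Good S d y x := by
  unfold Good at h ⊢
  rwa [Finset.inter_comm]

open Classical in
/-- Convexity: a large set contains many good ordered pairs. -/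
theorem card_good (S : Fin n → Finset (Fin n)) (d : ℕ) (hS : ∀ w, (S w).card = d) (hn : 0 < n)
    (X : Finset (Fin n)) (hX : 2 * n ≤ X.card * d) :
    X.card ^ 2 * d ≤ 4 * n * (X.offDiag.filter (fun p => Good S d p.1 p.2)).card := by
  have hd : 0 < d := by
    rcases Nat.eq_zero_or_pos d with h | h
    · rw [h] at hX; omega
    · exact h
  -- the numbers m z
  let m : Fin n → ℕ := fun z => (X.filter (fun x => z ∈ S x)).card
  have h1 : ∑ z, m z = X.card * d := by
    have : ∑ z, m z = ∑ z : Fin n, ∑ x ∈ X, (if z ∈ S x then 1 else 0) := by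
      apply Finset.sum_congr rfl
      intro z _
      simp only [m, Finset.card_filter]
    rw [this, Finset.sum_comm]
    have h2 : ∀ x ∈ X, ∑ z : Fin n, (if z ∈ S x then 1 else 0) = d := by
      intro x _
      rw [← hS x, Finset.card_eq_sum_ones, ← Finset.sum_filter]
      simp
    rw [Finset.sum_congr rfl h2, Finset.sum_const, smul_eq_mul]
  have h2 : ∑ z, (m z) ^ 2 = ∑ p ∈ X ×ˢ X, (S p.1 ∩ S p.2).card := by
    have e1 : ∀ z, (m z) ^ 2 = ∑ p ∈ X ×ˢ X, (if z ∈ S p.1 ∩ S p.2 then 1 else 0) := by
      intro z
      rw [← Finset.card_filter, sq]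
      simp only [m]
      rw [← Finset.card_product]
      congr 1
      ext p
      simp only [Finset.mem_product, Finset.mem_filter, Finset.mem_inter]
      tauto
    rw [Finset.sum_congr rfl (fun z _ => e1 z), Finset.sum_comm]
    apply Finset.sum_congr rfl
    intro p _
    rw [← Finset.card_filter, Finset.filter_mem_eq_inter, Finset.univ_inter]
  have h3 : (∑ z, m z) ^ 2 ≤ n * ∑ z, (m z) ^ 2 := by
    have := sq_sum_le_card_mul_sum_sq (s := (Finset.univ : Finset (Fin n))) (f := m)
    rwa [Finset.card_univ, Fintype.card_fin] at this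
  have h4 : ∑ p ∈ X ×ˢ X, (S p.1 ∩ S p.2).card =
      X.card * d + ∑ p ∈ X.offDiag, (S p.1 ∩ S p.2).card := by
    have e1 : X ×ˢ X = X.diag ∪ X.offDiag := (Finset.diag_union_offDiag X).symm
    rw [e1, Finset.sum_union (Finset.disjoint_diag_offDiag X), Finset.sum_diag]
    congr 1
    have : ∀ x ∈ X, (S x ∩ S x).card = d := by
      intro x _
      rw [Finset.inter_self, hS]
    rw [Finset.sum_congr rfl this, Finset.sum_const, smul_eq_mul]
  set Gd := X.offDiag.filter (fun p => Good S d p.1 p.2) with hGd
  have h5 : 4 * n * ∑ p ∈ X.offDiag, (S p.1 ∩ S p.2).card ≤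
      4 * n * (d * Gd.card) + X.card ^ 2 * d ^ 2 := by
    rw [← Finset.sum_filter_add_sum_filter_not X.offDiag (fun p => Good S d p.1 p.2), mul_add]
    apply add_le_add
    · apply Nat.mul_le_mul_left
      calc ∑ p ∈ X.offDiag.filter (fun p => Good S d p.1 p.2), (S p.1 ∩ S p.2).card
          ≤ ∑ p ∈ X.offDiag.filter (fun p => Good S d p.1 p.2), d := by
            apply Finset.sum_le_sum
            intro p _
            rw [← hS p.1]
            exact Finset.card_le_card Finset.inter_subset_left
        _ = d * Gd.card := by rw [Finset.sum_const, smul_eq_mul, mul_comm]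
    · rw [Finset.mul_sum]
      calc ∑ p ∈ X.offDiag.filter (fun p => ¬ Good S d p.1 p.2), 4 * n * (S p.1 ∩ S p.2).card
          ≤ ∑ p ∈ X.offDiag.filter (fun p => ¬ Good S d p.1 p.2), d ^ 2 := by
            apply Finset.sum_le_sum
            intro p hp
            have := (Finset.mem_filter.1 hp).2
            unfold Good at this
            push Not at this
            exact this.le
        _ = (X.offDiag.filter (fun p => ¬ Good S d p.1 p.2)).card * d ^ 2 := by
            rw [Finset.sum_const, smul_eq_mul]
        _ ≤ X.card ^ 2 * d ^ 2 := by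
            apply Nat.mul_le_mul_right
            calc _ ≤ X.offDiag.card := Finset.card_filter_le _ _
              _ ≤ X.card ^ 2 := by rw [Finset.offDiag_card, sq]; omega
  rw [h1, h2, h4] at h3
  -- final computation
  set A := X.card * d with hA
  set T := ∑ p ∈ X.offDiag, (S p.1 ∩ S p.2).card with hT
  have h6 : X.card ^ 2 * d ^ 2 = A ^ 2 := by rw [hA]; ring
  rw [h6] at h5
  have h7 : A ^ 2 ≤ 4 * n * (d * Gd.card) := by
    have h8 : 4 * A ^ 2 ≤ 4 * n * A + 4 * n * T := by nlinarith
    have h9 : 4 * n * A ≤ 2 * A ^ 2 := by nlinarith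
    omega
  have h8 : d * (X.card ^ 2 * d) ≤ d * (4 * n * Gd.card) := by
    calc d * (X.card ^ 2 * d) = A ^ 2 := by rw [hA]; ring
      _ ≤ 4 * n * (d * Gd.card) := h7
      _ = d * (4 * n * Gd.card) := by ring
  exact Nat.le_of_mul_le_mul_left h8 hd

open Classical in
/-- The sums of offsets of good pairs. -/
theorem card_sums (S : Fin n → Finset (Fin n)) (d : ℕ) (hS : ∀ w, (S w).card = d) (hn : 0 < n)
    (o : Fin n → ℕ) (X : Finset (Fin n)) (ho : Set.InjOn o X) (hX : 2 * n ≤ X.card * d) :
    X.card * d ≤ 4 * n * ((X.offDiag.filter (fun p => Good S d p.1 p.2)).image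
      (fun p => o p.1 + o p.2)).card := by
  have h1 := card_good S d hS hn X hX
  set Gd := X.offDiag.filter (fun p => Good S d p.1 p.2) with hGd
  have h2 : Gd.card ≤ X.card * (Gd.image (fun p => o p.1 + o p.2)).card := by
    apply Finset.card_le_mul_card_image
    intro a _
    have : (Gd.filter (fun p => o p.1 + o p.2 = a)).card ≤ X.card := by
      apply Finset.card_le_card_of_injOn (fun p => p.1)
      · intro p hp
        have hp' := (Finset.mem_filter.1 (Finset.mem_coe.1 hp)).1
        rw [hGd, Finset.mem_filter, Finset.mem_offDiag] at hp'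
        exact hp'.1.1
      · intro p hp q hq hpq
        have hp0 := Finset.mem_filter.1 (Finset.mem_coe.1 hp)
        have hq0 := Finset.mem_filter.1 (Finset.mem_coe.1 hq)
        have hp' := hp0.1
        have hq' := hq0.1
        rw [hGd, Finset.mem_filter, Finset.mem_offDiag] at hp' hq'
        have h3 : p.1 = q.1 := hpq
        have h4 : o p.2 = o q.2 := by
          have := hp0.2
          have := hq0.2
          rw [h3] at *
          omega
        exact Prod.ext h3 (ho hp'.1.2.1 hq'.1.2.1 h4)
    exact this
  have hX0 : 0 < X.card := by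
    rcases Nat.eq_zero_or_pos X.card with h | h
    · rw [h] at hX; omega
    · exact h
  have h3 : X.card * (X.card * d) ≤ X.card * (4 * n * (Gd.image (fun p => o p.1 + o p.2)).card) := by
    calc X.card * (X.card * d) = X.card ^ 2 * d := by ring
      _ ≤ 4 * n * Gd.card := h1
      _ ≤ 4 * n * (X.card * (Gd.image (fun p => o p.1 + o p.2)).card) :=
          Nat.mul_le_mul_left _ h2
      _ = _ := by ring
  exact Nat.le_of_mul_le_mul_left h3 hX0

end Pool.Agent.H47.TCF
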