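import Mathlib
import Pool.Agent.H47.TCF.Count

/-!
A random choice of one reflection centre per block hits all common option sets of good pairs.
-/

set_option linter.unusedSectionVars false

namespace Pool.Agent.H47.TCF

open Finset

variable {n : ℕ}

/-- Points of `C` in block `β`, not among the last two positions, offset congruent to `r` mod 3. -/
def cls (s : ℕ) (C : Finset (Fin n)) (β r : ℕ) : Finset (Fin n) :=
  C.filter (fun z => z.val / s = β ∧ z.val % s + 2 < s ∧ (z.val % s) % 3 = r)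

open Classical in
/-- Sums of offsets of good pairs in one class. -/
noncomputable def hit (S : Fin n → Finset (Fin n)) (d s : ℕ) (C : Finset (Fin n)) (β r : ℕ) :
    Finset ℕ :=
  ((cls s C β r).offDiag.filter (fun p => Good S d p.1 p.2)).image
    (fun p => p.1.val % s + p.2.val % s)

/-- Sums of offsets of good pairs in one block. -/
noncomputable def hits (S : Fin n → Finset (Fin n)) (d s : ℕ) (C : Finset (Fin n)) (β : ℕ) :
    Finset ℕ := (range 3).biUnion (hit S d s C β)

theorem mem_hits {S : Fin n → Finset (Fin n)} {d s : ℕ} {C : Finset (Fin n)} {β a : ℕ}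
    (h : a ∈ hits S d s C β) : ∃ p q : Fin n, p ∈ C ∧ q ∈ C ∧ p ≠ q ∧ p.val / s = β ∧
      q.val / s = β ∧ p.val % s + 2 < s ∧ q.val % s + 2 < s ∧
      (p.val % s) % 3 = (q.val % s) % 3 ∧ p.val % s + q.val % s = a ∧ Good S d p q := by
  classical
  unfold hits at h
  rw [mem_biUnion] at h
  obtain ⟨r, _, hr⟩ := h
  unfold hit at hr
  rw [mem_image] at hr
  obtain ⟨⟨p, q⟩, hpq, hsum⟩ := hr
  rw [mem_filter, mem_offDiag] at hpq
  unfold cls at hpq
  simp only [mem_filter] at hpq
  obtain ⟨⟨⟨hpC, hp1, hp2, hp3⟩, ⟨hqC, hq1, hq2, hq3⟩, hne⟩, hg⟩ := hpq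
  exact ⟨p, q, hpC, hqC, hne, hp1, hq1, hp2, hq2, by rw [hp3, hq3], hsum, hg⟩

theorem hit_mod {S : Fin n → Finset (Fin n)} {d s : ℕ} {C : Finset (Fin n)} {β r a : ℕ}
    (h : a ∈ hit S d s C β r) : a % 3 = (2 * r) % 3 ∧ a < 2 * s := by
  classical
  unfold hit at h
  rw [mem_image] at h
  obtain ⟨⟨p, q⟩, hpq, hsum⟩ := h
  rw [mem_filter, mem_offDiag] at hpq
  unfold cls at hpq
  simp only [mem_filter] at hpq
  obtain ⟨⟨⟨hpC, hp1, hp2, hp3⟩, ⟨hqC, hq1, hq2, hq3⟩, hne⟩, hg⟩ := hpq
  simp only at hsum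
  omega

theorem hits_subset {S : Fin n → Finset (Fin n)} {d s : ℕ} {C : Finset (Fin n)} {β : ℕ} :
    hits S d s C β ⊆ range (2 * s) := by
  intro a ha
  unfold hits at ha
  rw [mem_biUnion] at ha
  obtain ⟨r, _, hr⟩ := ha
  exact mem_range.2 (hit_mod hr).2

theorem card_hits {S : Fin n → Finset (Fin n)} {d s : ℕ} {C : Finset (Fin n)} {β : ℕ} :
    (hits S d s C β).card = ∑ r ∈ range 3, (hit S d s C β r).card := by
  unfold hits
  apply card_biUnion
  intro r hr r' hr' hne
  show Disjoint (hit S d s C β r) (hit S d s C β r')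
  rw [disjoint_left]
  intro a ha ha'
  have h1 := (hit_mod ha).1
  have h2 := (hit_mod ha').1
  rw [mem_coe, mem_range] at hr hr'
  omega

theorem cls_injOn {s : ℕ} {C : Finset (Fin n)} {β r : ℕ} :
    Set.InjOn (fun z : Fin n => z.val % s) (cls s C β r) := by
  intro x hx y hy hxy
  have hx' := mem_coe.1 hx
  have hy' := mem_coe.1 hy
  unfold cls at hx' hy'
  rw [mem_filter] at hx' hy'
  apply Fin.ext
  have h1 := Nat.div_add_mod x.val s
  have h2 := Nat.div_add_mod y.val s
  have h3 : x.val % s = y.val % s := hxy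
  rw [hx'.2.1] at h1
  rw [hy'.2.1] at h2
  omega

theorem card_cls_le (S : Fin n → Finset (Fin n)) (d s : ℕ) (hS : ∀ w, (S w).card = d)
    (hn : 0 < n) (C : Finset (Fin n)) (β r : ℕ) :
    (cls s C β r).card * d ≤ 4 * n * (hit S d s C β r).card + 2 * n := by
  by_cases h : 2 * n ≤ (cls s C β r).card * d
  · have := card_sums S d hS hn (fun z : Fin n => z.val % s) (cls s C β r) cls_injOn h
    unfold hit
    omega
  · omega

theorem card_le_cls (s B : ℕ) (hs : 2 ≤ s) (hB : n < B * s + s) (C : Finset (Fin n)) :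
    C.card ≤ (∑ β ∈ range B, ∑ r ∈ range 3, (cls s C β r).card) + 2 * B + s := by
  classical
  have h1 : C ⊆ (((range B) ×ˢ (range 3)).biUnion (fun q => cls s C q.1 q.2)) ∪
      (C.filter (fun z => z.val / s < B ∧ s ≤ z.val % s + 2)) ∪
      (C.filter (fun z => B * s ≤ z.val)) := by
    intro z hz
    rw [mem_union, mem_union]
    by_cases h1 : B * s ≤ z.val
    · right; exact mem_filter.2 ⟨hz, h1⟩
    · left
      have h2 : z.val / s < B := by
        rw [Nat.div_lt_iff_lt_mul (by omega)]; omega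
      by_cases h3 : s ≤ z.val % s + 2
      · right; exact mem_filter.2 ⟨hz, h2, h3⟩
      · left
        rw [mem_biUnion]
        refine ⟨(z.val / s, (z.val % s) % 3), ?_, ?_⟩
        · rw [mem_product, mem_range, mem_range]
          exact ⟨h2, Nat.mod_lt _ (by norm_num)⟩
        · unfold cls
          exact mem_filter.2 ⟨hz, rfl, by omega, rfl⟩
  have h2 : (((range B) ×ˢ (range 3)).biUnion (fun q => cls s C q.1 q.2)).card ≤
      ∑ β ∈ range B, ∑ r ∈ range 3, (cls s C β r).card := by
    refine card_biUnion_le.trans ?_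
    rw [sum_product]
  have h3 : (C.filter (fun z => z.val / s < B ∧ s ≤ z.val % s + 2)).card ≤ 2 * B := by
    have : (C.filter (fun z => z.val / s < B ∧ s ≤ z.val % s + 2)).card ≤
        ((range B) ×ˢ (range 2)).card := by
      apply card_le_card_of_injOn (fun z => (z.val / s, z.val % s + 2 - s))
      · intro z hz
        rw [mem_coe, mem_filter] at hz
        rw [mem_coe, mem_product, mem_range, mem_range]
        have := Nat.mod_lt z.val (show 0 < s by omega)
        exact ⟨hz.2.1, by simp only; omega⟩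
      · intro z hz w hw hzw
        rw [mem_coe, mem_filter] at hz hw
        simp only [Prod.mk.injEq] at hzw
        apply Fin.ext
        have e1 := Nat.div_add_mod z.val s
        have e2 := Nat.div_add_mod w.val s
        rw [hzw.1] at e1
        omega
    rw [card_product, card_range, card_range] at this
    omega
  have h4 : (C.filter (fun z => B * s ≤ z.val)).card ≤ s := by
    have : (C.filter (fun z => B * s ≤ z.val)).card ≤ (Finset.Ico (B * s) n).card := by
      apply card_le_card_of_injOn (fun z => z.val)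
      · intro z hz
        rw [mem_coe, mem_filter] at hz
        rw [mem_coe, Finset.mem_Ico]
        exact ⟨hz.2, z.isLt⟩
      · intro z _ w _ hzw
        exact Fin.ext hzw
    rw [Nat.card_Ico] at this
    omega
  have h5 := card_le_card h1
  have h6 := card_union_le ((((range B) ×ˢ (range 3)).biUnion (fun q => cls s C q.1 q.2)) ∪
      (C.filter (fun z => z.val / s < B ∧ s ≤ z.val % s + 2)))
      (C.filter (fun z => B * s ≤ z.val))
  have h7 := card_union_le (((range B) ×ˢ (range 3)).biUnion (fun q => cls s C q.1 q.2))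
      (C.filter (fun z => z.val / s < B ∧ s ≤ z.val % s + 2))
  omega

/-- The total number of hits is at least `d ^ 3 / (32 n ^ 2)`. -/
theorem total_hits (S : Fin n → Finset (Fin n)) (d s B : ℕ) (hS : ∀ w, (S w).card = d)
    (hn : 0 < n) (hs : 2 ≤ s) (hB : n < B * s + s) (hB' : B * s ≤ n) (hdn : d ≤ n)
    (hs1 : 128 * n ^ 3 ≤ s * d ^ 3) (hs2 : 16 * n * s ≤ d ^ 2)
    (C : Finset (Fin n)) (hC : d ^ 2 ≤ 4 * n * C.card) :
    d ^ 3 ≤ 32 * n ^ 2 * ∑ β ∈ range B, (hits S d s C β).card := by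
  have h1 := card_le_cls s B hs hB C
  have h2 : (∑ β ∈ range B, ∑ r ∈ range 3, (cls s C β r).card) * d ≤
      4 * n * (∑ β ∈ range B, (hits S d s C β).card) + 6 * n * B := by
    rw [Finset.sum_mul]
    calc ∑ β ∈ range B, (∑ r ∈ range 3, (cls s C β r).card) * d
        ≤ ∑ β ∈ range B, (4 * n * (hits S d s C β).card + 6 * n) := by
          apply Finset.sum_le_sum
          intro β _
          rw [card_hits, Finset.sum_mul, Finset.mul_sum]
          calc ∑ r ∈ range 3, (cls s C β r).card * d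
              ≤ ∑ r ∈ range 3, (4 * n * (hit S d s C β r).card + 2 * n) := by
                apply Finset.sum_le_sum
                intro r _
                exact card_cls_le S d s hS hn C β r
            _ = _ := by
                rw [Finset.sum_add_distrib, Finset.sum_const, card_range, smul_eq_mul]
                ring
      _ = _ := by
          rw [Finset.sum_add_distrib, Finset.sum_const, card_range, smul_eq_mul,
            ← Finset.mul_sum]
          ring
  set Q := ∑ β ∈ range B, (hits S d s C β).card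
  set K := ∑ β ∈ range B, ∑ r ∈ range 3, (cls s C β r).card
  have hs0 : 0 < s := by omega
  have h3 : 128 * n ^ 2 * B ≤ d ^ 3 := by
    apply Nat.le_of_mul_le_mul_left _ hs0
    calc s * (128 * n ^ 2 * B) = 128 * n ^ 2 * (B * s) := by ring
      _ ≤ 128 * n ^ 2 * n := Nat.mul_le_mul_left _ hB'
      _ = 128 * n ^ 3 := by ring
      _ ≤ s * d ^ 3 := hs1
  have h4 : 16 * n * s * d ≤ d ^ 3 := by
    calc 16 * n * s * d ≤ d ^ 2 * d := Nat.mul_le_mul_right _ hs2
      _ = d ^ 3 := by ring
  have h5 : d ^ 3 ≤ 4 * n * d * C.card := by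
    calc d ^ 3 = d ^ 2 * d := by ring
      _ ≤ 4 * n * C.card * d := Nat.mul_le_mul_right _ hC
      _ = _ := by ring
  have h6 : 4 * n * d * C.card ≤ 4 * n * d * (K + 2 * B + s) := Nat.mul_le_mul_left _ h1
  have h7 : 4 * n * (K * d) ≤ 4 * n * (4 * n * Q + 6 * n * B) := Nat.mul_le_mul_left _ h2
  have h8 : n * d * B ≤ n ^ 2 * B := by
    calc n * d * B ≤ n * n * B := Nat.mul_le_mul_right _ (Nat.mul_le_mul_left _ hdn)
      _ = _ := by ring
  nlinarith [h3, h4, h5, h6, h7, h8]

open Classical in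
/-- A choice of reflection centres which hits every common option set of a good pair. -/
theorem exists_centres (S : Fin n → Finset (Fin n)) (d s B : ℕ) (hS : ∀ w, (S w).card = d)
    (hn : 0 < n) (hs : 2 ≤ s) (hB : n < B * s + s) (hB' : B * s ≤ n) (hdn : d ≤ n)
    (hs1 : 128 * n ^ 3 ≤ s * d ^ 3) (hs2 : 16 * n * s ≤ d ^ 2)
    (hlog : (2 : ℝ) * Real.log n * (64 * n ^ 2 * s) < d ^ 3) :
    ∃ a : ℕ → ℕ, ∀ x y : Fin n, Good S d x y → ∃ β < B, a β ∈ hits S d s (S x ∩ S y) β := by
  by_contra hcon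
  push Not at hcon
  have hs0 : 0 < s := by omega
  let bad : Fin n × Fin n → Finset (Fin B → Fin (2 * s)) := fun p =>
    Fintype.piFinset (fun β : Fin B =>
      Finset.univ.filter (fun t : Fin (2 * s) => t.val ∉ hits S d s (S p.1 ∩ S p.2) β.val))
  let idx : Finset (Fin n × Fin n) := Finset.univ.filter (fun p => Good S d p.1 p.2)
  have hcover : (Finset.univ : Finset (Fin B → Fin (2 * s))) ⊆ idx.biUnion bad := by
    intro a _
    obtain ⟨x, y, hxy, hall⟩ := hcon (fun β => if h : β < B then (a ⟨β, h⟩).val else 0)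
    rw [mem_biUnion]
    refine ⟨(x, y), mem_filter.2 ⟨mem_univ _, hxy⟩, ?_⟩
    simp only [bad]
    rw [Fintype.mem_piFinset]
    intro β
    rw [mem_filter]
    refine ⟨mem_univ _, ?_⟩
    have := hall β.val β.isLt
    rwa [dif_pos β.isLt] at this
  have hcard := (card_le_card hcover).trans card_biUnion_le
  rw [card_univ, Fintype.card_fun, Fintype.card_fin, Fintype.card_fin] at hcard
  have hbad : ∀ p ∈ idx, ((bad p).card : ℝ) ≤
      ((2 * s : ℕ) : ℝ) ^ B * Real.exp (-(d ^ 3 : ℝ) / (64 * n ^ 2 * s)) := by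
    intro p hp
    have hgood : Good S d p.1 p.2 := (mem_filter.1 hp).2
    have htot := total_hits S d s B hS hn hs hB hB' hdn hs1 hs2 (S p.1 ∩ S p.2) hgood
    simp only [bad]
    rw [Fintype.card_piFinset]
    have hc1 : ∀ β : Fin B, ((Finset.univ.filter (fun t : Fin (2 * s) => t.val ∉
        hits S d s (S p.1 ∩ S p.2) β.val)).card : ℝ) ≤
        ((2 * s : ℕ) : ℝ) * Real.exp (-((hits S d s (S p.1 ∩ S p.2) β.val).card : ℝ) /
          ((2 * s : ℕ) : ℝ)) := by
      intro β
      set Hh := hits S d s (S p.1 ∩ S p.2) β.val with hHh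
      have e1 : (Finset.univ.filter (fun t : Fin (2 * s) => t.val ∉ Hh)).card + Hh.card =
          2 * s := by
        have e2 : (Finset.univ.filter (fun t : Fin (2 * s) => t.val ∈ Hh)).card = Hh.card := by
          apply Finset.card_bij (fun t _ => t.val)
          · intro t ht
            exact (mem_filter.1 ht).2
          · intro t _ t' _ htt
            exact Fin.ext htt
          · intro b hb
            have : b < 2 * s := mem_range.1 (hits_subset hb)
            exact ⟨⟨b, this⟩, mem_filter.2 ⟨mem_univ _, hb⟩, rfl⟩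
        have e3 := Finset.card_filter_add_card_filter_not (s := (Finset.univ : Finset (Fin (2 * s))))
          (fun t => t.val ∈ Hh)
        rw [card_univ, Fintype.card_fin] at e3
        omega
      have h2s : (0 : ℝ) < ((2 * s : ℕ) : ℝ) := by exact_mod_cast (by omega : 0 < 2 * s)
      have e4 : ((Finset.univ.filter (fun t : Fin (2 * s) => t.val ∉ Hh)).card : ℝ) =
          ((2 * s : ℕ) : ℝ) * (1 - (Hh.card : ℝ) / ((2 * s : ℕ) : ℝ)) := by
        have : ((Finset.univ.filter (fun t : Fin (2 * s) => t.val ∉ Hh)).card : ℝ) + Hh.card =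
          ((2 * s : ℕ) : ℝ) := by exact_mod_cast e1
        field_simp
        linarith
      rw [e4]
      apply mul_le_mul_of_nonneg_left _ h2s.le
      have := Real.one_sub_le_exp_neg ((Hh.card : ℝ) / ((2 * s : ℕ) : ℝ))
      rwa [neg_div]
    have hc2 : ((∏ β : Fin B, (Finset.univ.filter (fun t : Fin (2 * s) => t.val ∉
        hits S d s (S p.1 ∩ S p.2) β.val)).card : ℕ) : ℝ) ≤
        ∏ β : Fin B, (((2 * s : ℕ) : ℝ) * Real.exp (-((hits S d s (S p.1 ∩ S p.2) β.val).card : ℝ) /
          ((2 * s : ℕ) : ℝ))) := by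
      push_cast
      apply Finset.prod_le_prod
      · intro β _; positivity
      · intro β _
        have := hc1 β
        push_cast at this
        exact this
    refine hc2.trans ?_
    rw [Finset.prod_mul_distrib, Finset.prod_const, card_univ, Fintype.card_fin, ← Real.exp_sum]
    apply mul_le_mul_of_nonneg_left _ (by positivity)
    apply Real.exp_le_exp.2
    rw [← Finset.sum_div, Finset.sum_neg_distrib, neg_div, neg_div]
    apply neg_le_neg
    have hsum : ∑ β : Fin B, ((hits S d s (S p.1 ∩ S p.2) β.val).card : ℝ) =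
        ((∑ β ∈ range B, (hits S d s (S p.1 ∩ S p.2) β).card : ℕ) : ℝ) := by
      rw [Finset.sum_range]
      push_cast
      rfl
    rw [hsum]
    have hn' : (0 : ℝ) < n := by exact_mod_cast hn
    have hs' : (0 : ℝ) < s := by exact_mod_cast hs0
    rw [div_le_div_iff₀ (by positivity) (by positivity)]
    have htot' : (d : ℝ) ^ 3 ≤ 32 * (n : ℝ) ^ 2 *
        ((∑ β ∈ range B, (hits S d s (S p.1 ∩ S p.2) β).card : ℕ) : ℝ) := by exact_mod_cast htot
    have h2s' : (0 : ℝ) ≤ ((2 * s : ℕ) : ℝ) := by positivity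
    calc (d : ℝ) ^ 3 * ((2 * s : ℕ) : ℝ) ≤ 32 * (n : ℝ) ^ 2 *
        ((∑ β ∈ range B, (hits S d s (S p.1 ∩ S p.2) β).card : ℕ) : ℝ) * ((2 * s : ℕ) : ℝ) :=
          mul_le_mul_of_nonneg_right htot' h2s'
      _ = _ := by push_cast; ring
  have hsumbad : (((2 * s) ^ B : ℕ) : ℝ) ≤ (n : ℝ) ^ 2 * (((2 * s : ℕ) : ℝ) ^ B *
      Real.exp (-(d ^ 3 : ℝ) / (64 * n ^ 2 * s))) := by
    calc (((2 * s) ^ B : ℕ) : ℝ) ≤ ((∑ p ∈ idx, (bad p).card : ℕ) : ℝ) := by exact_mod_cast hcard
      _ = ∑ p ∈ idx, ((bad p).card : ℝ) := by push_cast; rfl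
      _ ≤ ∑ p ∈ idx, (((2 * s : ℕ) : ℝ) ^ B * Real.exp (-(d ^ 3 : ℝ) / (64 * n ^ 2 * s))) :=
          Finset.sum_le_sum hbad
      _ = (idx.card : ℝ) * (((2 * s : ℕ) : ℝ) ^ B *
          Real.exp (-(d ^ 3 : ℝ) / (64 * n ^ 2 * s))) := by
          rw [Finset.sum_const, nsmul_eq_mul]
      _ ≤ _ := by
          apply mul_le_mul_of_nonneg_right _ (by positivity)
          have : idx.card ≤ n ^ 2 := by
            refine (card_le_univ idx).trans ?_
            rw [Fintype.card_prod, Fintype.card_fin, sq]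
          exact_mod_cast this
  have hn' : (0 : ℝ) < n := by exact_mod_cast hn
  have hs' : (0 : ℝ) < s := by exact_mod_cast hs0
  have hexp : (n : ℝ) ^ 2 * Real.exp (-(d ^ 3 : ℝ) / (64 * n ^ 2 * s)) < 1 := by
    have e1 : (n : ℝ) ^ 2 = Real.exp (2 * Real.log n) := by
      rw [mul_comm, Real.exp_mul, Real.exp_log hn']
      norm_num
    have e2 : (n : ℝ) ^ 2 * Real.exp (-(d ^ 3 : ℝ) / (64 * n ^ 2 * s)) =
        Real.exp (2 * Real.log n + (-(d ^ 3 : ℝ) / (64 * n ^ 2 * s))) := by
      rw [Real.exp_add, ← e1]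
    rw [e2, Real.exp_lt_one_iff]
    have : (2 : ℝ) * Real.log n < d ^ 3 / (64 * n ^ 2 * s) := by
      rw [lt_div_iff₀ (by positivity)]
      exact hlog
    rw [neg_div]
    linarith
  have h2s : (0 : ℝ) < ((2 * s : ℕ) : ℝ) ^ B := by
    have : (0 : ℝ) < ((2 * s : ℕ) : ℝ) := by exact_mod_cast (by omega : 0 < 2 * s)
    positivity
  have hfin : (n : ℝ) ^ 2 * (((2 * s : ℕ) : ℝ) ^ B *
      Real.exp (-(d ^ 3 : ℝ) / (64 * n ^ 2 * s))) < ((2 * s : ℕ) : ℝ) ^ B := by
    calc _ = ((n : ℝ) ^ 2 * Real.exp (-(d ^ 3 : ℝ) / (64 * n ^ 2 * s))) *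
        ((2 * s : ℕ) : ℝ) ^ B := by ring
      _ < 1 * ((2 * s : ℕ) : ℝ) ^ B := mul_lt_mul_of_pos_right hexp h2s
      _ = _ := one_mul _
  push_cast at hsumbad hfin
  linarith

end Pool.Agent.H47.TCF
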