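import Mathlib
import Pool.Agent.H47.TCF.Chain
import Pool.Agent.H47.TCF.Factor
import Pool.Agent.H47.TCF.Hit

/-!
Closing the chain: periodic points of a successor function on designated good pairs.
-/

set_option linter.unusedSectionVars false

namespace Pool.Agent.H47.TCF

open Finset

section

variable {n : ℕ} [NeZero n]

/-- The pair `x, y` is designated (by the centres `a`) and good. -/
structure Des (S : Fin n → Finset (Fin n)) (d s B : ℕ) (a : ℕ → ℕ) (x y : Fin n) : Prop where
  ne : x ≠ y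
  block : x.val / s = y.val / s
  lt : x.val / s < B
  xs : x.val % s + 2 < s
  ys : y.val % s + 2 < s
  mod : (x.val % s) % 3 = (y.val % s) % 3
  sum : x.val % s + y.val % s = a (x.val / s)
  good : Good S d x y

variable {S : Fin n → Finset (Fin n)} {d s B : ℕ} {a : ℕ → ℕ}

theorem Des.symm {x y : Fin n} (h : Des S d s B a x y) : Des S d s B a y x :=
  ⟨h.ne.symm, h.block.symm, by rw [← h.block]; exact h.lt, h.ys, h.xs, h.mod.symm,
    by rw [← h.block, ← h.sum]; ring, h.good.symm⟩

theorem Des.unique {x y z : Fin n} (h : Des S d s B a x y) (h' : Des S d s B a x z) : y = z := by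
  apply Fin.ext
  have h1 := Nat.div_add_mod y.val s
  have h2 := Nat.div_add_mod z.val s
  rw [← h.block] at h1
  rw [← h'.block] at h2
  have h3 := h.sum
  have h4 := h'.sum
  omega

theorem Des.next (H : ∀ x y : Fin n, Good S d x y →
    ∃ β < B, a β ∈ hits S d s (S x ∩ S y) β) {x y : Fin n} (h : Good S d x y) :
    ∃ p q, Des S d s B a p q ∧ p ∈ S x ∩ S y ∧ q ∈ S x ∩ S y := by
  obtain ⟨β, hβ, hm⟩ := H x y h
  obtain ⟨p, q, hp, hq, hne, h1, h2, h3, h4, h5, h6, h7⟩ := mem_hits hm
  exact ⟨p, q, ⟨hne, by rw [h1, h2], by rw [h1]; exact hβ, h3, h4, h5, by rw [h6, h1], h7⟩, hp, hq⟩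

theorem exists_closed (hBn : B * s ≤ n)
    (H : ∀ x y : Fin n, Good S d x y → ∃ β < B, a β ∈ hits S d s (S x ∩ S y) β)
    (hne : ∃ x y : Fin n, Good S d x y) :
    ∃ (U : Finset (Fin n)) (ι : Fin n → Fin n) (σ : Equiv.Perm (Fin n)),
      U.Nonempty ∧ Match U ι ∧ InS S U ι σ ∧
      ∀ u ∈ U, ∀ w ∈ U, u < w → u.val + 3 ≤ w.val ∧ w.val + 3 ≤ u.val + n := by
  classical
  let ι : Fin n → Fin n := fun x => if h : ∃ y, Des S d s B a x y then h.choose else x
  have hι : ∀ x, (∃ y, Des S d s B a x y) → Des S d s B a x (ι x) := by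
    intro x h
    simp only [ι]
    rw [dif_pos h]
    exact h.choose_spec
  have hιD : ∀ x, (∃ y, Des S d s B a x y) → ∃ y, Des S d s B a (ι x) y :=
    fun x h => ⟨x, (hι x h).symm⟩
  have hιι : ∀ x, (∃ y, Des S d s B a x y) → ι (ι x) = x := fun x h =>
    (hι (ι x) (hιD x h)).unique (hι x h).symm
  -- the successor
  have hg : ∀ x, (∃ y, Des S d s B a x y) → ∃ p, (∃ y, Des S d s B a p y) ∧
      p ∈ S x ∩ S (ι x) ∧ ι p ∈ S x ∩ S (ι x) := by
    intro x h
    obtain ⟨p, q, hpq, hp, hq⟩ := Des.next H (hι x h).good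
    have : ι p = q := (hι p ⟨q, hpq⟩).unique hpq
    exact ⟨p, ⟨q, hpq⟩, hp, by rw [this]; exact hq⟩
  let g : Fin n → Fin n := fun x => if h : ∃ y, Des S d s B a x y then (hg x h).choose else x
  have hgs : ∀ x, (∃ y, Des S d s B a x y) → (∃ y, Des S d s B a (g x) y) ∧
      g x ∈ S x ∩ S (ι x) ∧ ι (g x) ∈ S x ∩ S (ι x) := by
    intro x h
    simp only [g]
    rw [dif_pos h]
    exact (hg x h).choose_spec
  let F : Fin n → Fin n := fun x => if x < ι x then g x else ι (g (ι x))
  have hlt : ∀ x, (∃ y, Des S d s B a x y) → (x < ι x ∨ ι x < x) := by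
    intro x h
    rcases lt_trichotomy x (ι x) with h1 | h1 | h1
    · exact Or.inl h1
    · exact absurd h1 (hι x h).ne
    · exact Or.inr h1
  have hFD : ∀ x, (∃ y, Des S d s B a x y) → ∃ y, Des S d s B a (F x) y := by
    intro x h
    simp only [F]
    split_ifs with h1
    · exact (hgs x h).1
    · exact hιD _ (hgs _ (hιD x h)).1
  have hFι : ∀ x, (∃ y, Des S d s B a x y) → F (ι x) = ι (F x) := by
    intro x h
    rcases hlt x h with h1 | h1
    · have h2 : ¬ (ι x < ι (ι x)) := by rw [hιι x h]; exact not_lt.2 h1.le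
      simp only [F]
      rw [if_neg h2, if_pos h1, hιι x h]
    · have h2 : ι x < ι (ι x) := by rw [hιι x h]; exact h1
      simp only [F]
      rw [if_pos h2, if_neg (not_lt.2 h1.le), hιι _ (hgs _ (hιD x h)).1]
  have hFS : ∀ x, (∃ y, Des S d s B a x y) → F x ∈ S x ∧ ι (F x) ∈ S x := by
    intro x h
    simp only [F]
    split_ifs with h1
    · exact ⟨(mem_inter.1 (hgs x h).2.1).1, (mem_inter.1 (hgs x h).2.2).1⟩
    · have h2 := hgs _ (hιD x h)
      rw [hιι x h] at h2
      refine ⟨(mem_inter.1 h2.2.2).2, ?_⟩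
      rw [hιι _ h2.1]
      exact (mem_inter.1 h2.2.1).2
  have hFk : ∀ k x, (∃ y, Des S d s B a x y) → (∃ y, Des S d s B a (F^[k] x) y) ∧
      F^[k] (ι x) = ι (F^[k] x) := by
    intro k
    induction k with
    | zero => intro x h; exact ⟨h, rfl⟩
    | succ k ih =>
      intro x h
      rw [Function.iterate_succ_apply, Function.iterate_succ_apply, hFι x h]
      exact ih (F x) (hFD x h)
  let U : Finset (Fin n) := Finset.univ.filter
    (fun x => (∃ y, Des S d s B a x y) ∧ ∃ k, 0 < k ∧ F^[k] x = x)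
  have hU : ∀ x, x ∈ U ↔ (∃ y, Des S d s B a x y) ∧ ∃ k, 0 < k ∧ F^[k] x = x := by
    intro x
    simp only [U, mem_filter, mem_univ, true_and]
  have hUF : ∀ x ∈ U, F x ∈ U := by
    intro x hx
    rw [hU] at hx ⊢
    obtain ⟨h, k, hk, hkx⟩ := hx
    refine ⟨hFD x h, k, hk, ?_⟩
    rw [← Function.iterate_succ_apply, Function.iterate_succ_apply', hkx]
  have hUι : ∀ x ∈ U, ι x ∈ U := by
    intro x hx
    rw [hU] at hx ⊢
    obtain ⟨h, k, hk, hkx⟩ := hx
    exact ⟨hιD x h, k, hk, by rw [(hFk k x h).2, hkx]⟩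
  have hinj : ∀ x ∈ U, ∀ y ∈ U, F x = F y → x = y := by
    intro x hx y hy hxy
    rw [hU] at hx hy
    obtain ⟨-, k, hk, hkx⟩ := hx
    obtain ⟨-, l, hl, hly⟩ := hy
    have h1 : F^[k * l] x = x := Function.IsPeriodicPt.mul_const hkx l
    have h2 : F^[k * l] y = y := Function.IsPeriodicPt.const_mul hly k
    obtain ⟨m, hm⟩ : ∃ m, k * l = m + 1 := ⟨k * l - 1, by
      have := Nat.mul_pos hk hl; omega⟩
    rw [hm, Function.iterate_succ_apply] at h1 h2
    rw [← h1, ← h2, hxy]
  have hUne : U.Nonempty := by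
    obtain ⟨x, y, hxy⟩ := hne
    obtain ⟨p, q, hpq, -, -⟩ := Des.next H hxy
    have hp : ∃ y, Des S d s B a p y := ⟨q, hpq⟩
    obtain ⟨i, j, hij, hFij⟩ := Finite.exists_ne_map_eq_of_infinite (fun i : ℕ => F^[i] p)
    wlog hlt' : i < j generalizing i j
    · exact this j i hij.symm hFij.symm (by omega)
    refine ⟨F^[i] p, (hU _).2 ⟨(hFk i p hp).1, j - i, by omega, ?_⟩⟩
    rw [← Function.iterate_add_apply, Nat.sub_add_cancel hlt'.le]
    exact hFij.symm
  let f : Fin n → Fin n := fun x => if x ∈ U then F x else x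
  have hf : Function.Injective f := by
    intro x y hxy
    simp only [f] at hxy
    by_cases hx : x ∈ U
    · by_cases hy : y ∈ U
      · rw [if_pos hx, if_pos hy] at hxy
        exact hinj x hx y hy hxy
      · rw [if_pos hx, if_neg hy] at hxy
        exact absurd (hxy ▸ hUF x hx) hy
    · by_cases hy : y ∈ U
      · rw [if_neg hx, if_pos hy] at hxy
        exact absurd (hxy ▸ hUF y hy) hx
      · rw [if_neg hx, if_neg hy] at hxy
        exact hxy
  have hDU : ∀ x ∈ U, Des S d s B a x (ι x) := fun x hx => hι x ((hU x).1 hx).1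
  refine ⟨U, ι, Equiv.ofBijective f (Finite.injective_iff_bijective.1 hf), hUne, ?_, ?_, ?_⟩
  · refine ⟨hUι, fun w hw => hιι w ((hU w).1 hw).1, fun w hw => (hDU w hw).ne.symm, ?_⟩
    intro x hx hlt w hw hxw hwx
    have e1 := Nat.div_add_mod x.val s
    have e2 := Nat.div_add_mod (ι x).val s
    have e3 := Nat.div_add_mod w.val s
    have e4 := Nat.div_add_mod (ι w).val s
    rw [Fin.lt_def] at hxw hwx hlt
    have b1 : x.val / s ≤ w.val / s := Nat.div_le_div_right hxw.le
    have b2 : w.val / s ≤ (ι x).val / s := Nat.div_le_div_right hwx.le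
    have b3 := (hDU x hx).block
    have b4 := (hDU w hw).block
    have b5 : w.val / s = x.val / s := by omega
    have s1 := (hDU x hx).sum
    have s2 := (hDU w hw).sum
    rw [b5] at s2
    rw [← b3] at e2
    rw [b5] at e3
    rw [← b4, b5] at e4
    rw [Fin.lt_def, Fin.lt_def]
    omega
  · constructor
    · intro w hw
      show f w = w
      exact if_neg hw
    · intro w hw
      show f w ∈ U
      simp only [f]
      rw [if_pos hw]
      exact hUF w hw
    · intro w hw
      show f w ∈ S w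
      simp only [f]
      rw [if_pos hw]
      exact (hFS w ((hU w).1 hw).1).1
    · intro w hw
      show ι (f w) ∈ S w
      simp only [f]
      rw [if_pos hw]
      exact (hFS w ((hU w).1 hw).1).2
    · intro w hw
      show f (ι w) = ι (f w)
      simp only [f]
      rw [if_pos hw, if_pos (hUι w hw)]
      exact hFι w ((hU w).1 hw).1
  · intro u hu w hw huw
    have hu' := hDU u hu
    have hw' := hDU w hw
    have e1 := Nat.div_add_mod u.val s
    have e3 := Nat.div_add_mod w.val s
    rw [Fin.lt_def] at huw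
    have b1 : u.val / s ≤ w.val / s := Nat.div_le_div_right huw.le
    have w1 := hw'.xs
    have u1 := hu'.xs
    constructor
    · rcases Nat.lt_or_ge (u.val / s) (w.val / s) with h | h
      · have h2 : s * (u.val / s + 1) ≤ s * (w.val / s) := Nat.mul_le_mul_left _ h
        rw [Nat.mul_add, Nat.mul_one] at h2
        omega
      · have h3 : u.val / s = w.val / s := le_antisymm b1 h
        have s1 := hu'.sum
        have s2 := hw'.sum
        have m1 := hu'.mod
        have m2 := hw'.mod
        rw [h3] at s1 e1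
        omega
    · have h2 : s * (w.val / s + 1) ≤ s * B := Nat.mul_le_mul_left _ hw'.lt
      rw [Nat.mul_add, Nat.mul_one] at h2
      have h4 : s * B = B * s := mul_comm _ _
      omega

theorem no_two_cycle (hn : 3 ≤ n) {U : Finset (Fin n)} {ι : Fin n → Fin n}
    {σ : Equiv.Perm (Fin n)} (hσ : InS S U ι σ)
    (hsep : ∀ u ∈ U, ∀ w ∈ U, u < w → u.val + 3 ≤ w.val ∧ w.val + 3 ≤ u.val + n) (k : Fin n) :
    (σ * nx n) ((σ * nx n) k) ≠ k := by
  have hadd1 : ∀ u : Fin n, (u + 1).val = if u.val + 1 < n then u.val + 1 else u.val + 1 - n := by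
    intro u
    have hu := u.isLt
    rw [Fin.val_add, Fin.val_one', Nat.mod_eq_of_lt (a := 1) (by omega)]
    split_ifs with h
    · exact Nat.mod_eq_of_lt h
    · have : u.val + 1 = n := by omega
      rw [this, Nat.mod_self, Nat.sub_self]
  have h1 : ∀ u ∈ U, u + 1 ∉ U := by
    intro u hu hu1
    have e := hadd1 u
    have hu' := u.isLt
    rcases lt_trichotomy u (u + 1) with h | h | h
    · have := hsep u hu _ hu1 h
      split_ifs at e <;> omega
    · have := congrArg Fin.val h
      split_ifs at e <;> omega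
    · have := hsep _ hu1 u hu h
      rw [Fin.lt_def] at h
      split_ifs at e <;> omega
  have h2 : ∀ u ∈ U, u + 1 + 1 ∉ U := by
    intro u hu hu1
    have e := hadd1 u
    have e' := hadd1 (u + 1)
    have hu' := u.isLt
    rcases lt_trichotomy u (u + 1 + 1) with h | h | h
    · have := hsep u hu _ hu1 h
      split_ifs at e e' <;> omega
    · have := congrArg Fin.val h
      split_ifs at e e' <;> omega
    · have := hsep _ hu1 u hu h
      rw [Fin.lt_def] at h
      split_ifs at e e' <;> omega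
  rw [Equiv.Perm.mul_apply, Equiv.Perm.mul_apply, nx_apply, nx_apply]
  intro hk
  by_cases hk1 : k + 1 ∈ U
  · have hz := hσ.mem _ hk1
    rw [hσ.off _ (h1 _ hz)] at hk
    apply h2 _ hz
    rw [hk]
    exact hk1
  · rw [hσ.off _ hk1] at hk
    by_cases hk2 : k + 1 + 1 ∈ U
    · have hz := hσ.mem _ hk2
      rw [hk] at hz
      exact h2 _ hz hk2
    · rw [hσ.off _ hk2] at hk
      have e := hadd1 k
      have e' := hadd1 (k + 1)
      have hk' := k.isLt
      have := congrArg Fin.val hk
      split_ifs at e e' <;> omega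

end

/-- The main statement in terms of the parameters. -/
theorem exists_twoCycle {n d s B : ℕ} (hn : 3 ≤ n) (G : SimpleGraph (Fin n))
    (hG : G.IsHamiltonian) (hdeg : ∀ v, d ≤ (G.neighborSet v).ncard)
    (hs : 2 ≤ s) (hB : n < B * s + s) (hB' : B * s ≤ n) (hdn : d ≤ n)
    (hs1 : 128 * n ^ 3 ≤ s * d ^ 3) (hs2 : 16 * n * s ≤ d ^ 2)
    (hlog : (2 : ℝ) * Real.log n * (64 * n ^ 2 * s) < d ^ 3) :
    ∃ F : SimpleGraph (Fin n), F ≤ G ∧ (∀ x, (F.neighborSet x).ncard = 2) ∧
      Nat.card F.ConnectedComponent = 2 := by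
  classical
  have : NeZero n := ⟨by omega⟩
  obtain ⟨v, hv⟩ := exists_cyclic hn G hG
  -- option sets
  have hSex : ∀ w : Fin n, ∃ T : Finset (Fin n), T.card = d ∧
      ∀ j ∈ T, G.Adj (v ((nx n).symm w)) (v j) := by
    intro w
    have h1 := hdeg (v ((nx n).symm w))
    let N : Finset (Fin n) := Finset.univ.filter (fun j => G.Adj (v ((nx n).symm w)) (v j))
    have h2 : (G.neighborSet (v ((nx n).symm w))).ncard = N.card := by
      rw [← Set.ncard_coe_finset]
      have : G.neighborSet (v ((nx n).symm w)) = v '' (N : Set (Fin n)) := by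
        ext y
        rw [SimpleGraph.mem_neighborSet]
        constructor
        · intro h
          refine ⟨v.symm y, ?_, v.apply_symm_apply y⟩
          simp only [N, coe_filter, mem_univ, true_and, Set.mem_ofPred_eq, Equiv.apply_symm_apply]
          exact h
        · rintro ⟨j, hj, rfl⟩
          simp only [N, coe_filter, mem_univ, true_and] at hj
          exact hj
      rw [this, Set.ncard_image_of_injective _ v.injective]
    rw [h2] at h1
    obtain ⟨T, hT, hTc⟩ := Finset.exists_subset_card_eq h1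
    exact ⟨T, hTc, fun j hj => (mem_filter.1 (hT hj)).2⟩
  choose S hS hSadj using hSex
  obtain ⟨a, ha⟩ := exists_centres S d s B hS (by omega) hs hB hB' hdn hs1 hs2 hlog
  have hne : ∃ x y : Fin n, Good S d x y := by
    refine ⟨0, 0, ?_⟩
    unfold Good
    rw [Finset.inter_self, hS]
    calc d ^ 2 = d * d := sq d
      _ ≤ n * d := Nat.mul_le_mul_right _ hdn
      _ ≤ 4 * n * d := Nat.mul_le_mul_right _ (by omega)
  obtain ⟨U, ι, σ₀, hU, hM, hσ₀, hsep⟩ := exists_closed hB' ha hne
  obtain ⟨σ, hσ, hnc⟩ := exists_two_cycles hM hU hσ₀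
  apply exists_twoFactor G (σ * nx n) v _ (no_two_cycle hn hσ hsep) hnc
  intro k
  rw [Equiv.Perm.mul_apply]
  by_cases hk : nx n k ∈ U
  · have h1 := hSadj (nx n k) _ (hσ.opt _ hk)
    rwa [Equiv.symm_apply_apply] at h1
  · rw [hσ.off _ hk]
    exact hv k

end Pool.Agent.H47.TCF
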